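import Pool.Agent.H28.RC.Targets3

/-!
# LOC: localisation at a subgroup with cyclotomic quotient
-/

set_option autoImplicit false

open NumberField

namespace Pool.Agent.H37.RC

open Pool.Agent.H28.RC Pool.Agent.H25.HK Pool.Agent.H25

theorem fro_prime {F Ω : Type} [Field F] [NumberField F] [Field Ω] [NumberField Ω] [Algebra F Ω]
    {P : Ideal (𝓞 F)} {g : Ω ≃ₐ[F] Ω} (h : Fro P g) : P.IsPrime ∧ P ≠ ⊥ := by
  obtain ⟨Q, hQ, h1, h2⟩ := h
  refine ⟨?_, ?_⟩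
  · rw [← h1]
    exact Ideal.IsPrime.under (𝓞 F) Q
  · intro h3
    have h4 := h2 0
    rw [h3, Ideal.absNorm_bot, pow_zero, smul_zero, zero_sub] at h4
    exact hQ.ne_top ((Ideal.eq_top_iff_one Q).2 (by simpa using Q.neg_mem h4))

theorem pc_pow {F : Type} [Field F] [NumberField F] {m : Ideal (𝓞 F)} {ψ : Ideal (𝓞 F) → ℂ}
    (h : PC m ψ) (P : Ideal (𝓞 F)) (f : ℕ) : ψ (P ^ f) = ψ P ^ f := by
  induction f with
  | zero => rw [pow_zero, pow_zero, Ideal.one_eq_top, h.one]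
  | succ k ih => rw [pow_succ, pow_succ, h.mul, ih]

theorem pf_LOC : T_URT → T_FR1 → T_FR2 → T_LFT → T_CYC → T_LOC := by
  intro URT FR1 FR2 LFT CYC F Ω _ _ _ _ _ _ m N H q _ ζ ψ hζ hmq hUR hN hH hψ
  let L : IntermediateField F Ω := IntermediateField.fixedField H
  have : NumberField L := NumberField.of_module_finite F L
  have hfix : L.fixingSubgroup = H := IntermediateField.fixingSubgroup_fixedField H
  let e : H ≃* (Ω ≃ₐ[L] Ω) :=
    (MulEquiv.subgroupCongr hfix.symm).trans (IntermediateField.fixingSubgroupEquiv L)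
  have key : ∀ h : H, (e h).restrictScalars F = (h : Ω ≃ₐ[F] Ω) := by
    intro h
    ext x
    rfl
  have h1 : ∀ h : Ω ≃ₐ[L] Ω, h.restrictScalars F ∈ H := by
    intro h
    have h2 := key (e.symm h)
    rw [MulEquiv.apply_symm_apply] at h2
    rw [h2]
    exact (e.symm h).2
  let ι : (Ω ≃ₐ[L] Ω) →* (Ω ≃ₐ[F] Ω) := AlgEquiv.restrictScalarsHom F
  have hι : ∀ h : Ω ≃ₐ[L] Ω, ι h = h.restrictScalars F := fun h => rfl
  obtain ⟨u1, u2⟩ := URT F L Ω m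
  have hPC := LFT F L m ψ hψ.pc
  have hPsi : Psi (m.map (algebraMap (𝓞 F) (𝓞 L))) (N.comap ι)
      (fun J => ψ (Ideal.relNorm (𝓞 F) J)) := by
    refine ⟨hPC, ?_⟩
    intro Q hQ h hfro k hk
    obtain ⟨p1, p2⟩ := fro_prime hfro
    have h3 := (u1 Q p1 p2).2.2.1 hQ
    obtain ⟨g, f, f1, g1, r1, r2, r3⟩ := FR1 F L Ω m hUR Q h hfro h3
    show ψ (Ideal.relNorm (𝓞 F) Q) ^ k = 1
    rw [r1, pc_pow hψ.pc, ← pow_mul]
    refine hψ.tr _ h3 g g1 (f * k) ?_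
    rw [pow_mul, ← r3, ← hι, ← map_pow]
    exact hk
  have hle : m.map (algebraMap (𝓞 F) (𝓞 L)) ≤ Ideal.span {(q : 𝓞 L)} := by
    have h3 := Ideal.map_mono (f := algebraMap (𝓞 F) (𝓞 L)) hmq
    rw [Ideal.map_span, Set.image_singleton, map_natCast] at h3
    exact h3
  have hNn : (N.comap ι).Normal := Subgroup.Normal.comap hN ι
  obtain ⟨μ, hμN, hμ⟩ := CYC L Ω (m.map (algebraMap (𝓞 F) (𝓞 L))) (N.comap ι) q ζ hζ hPC.ne hle
    (u2 hUR) hNn (fun h hh => hH (h.restrictScalars F) (h1 h) hh) _ hPsi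
  refine ⟨μ.comp e.toMonoidHom, ?_, ?_⟩
  · intro h hh
    refine hμN (e h) ?_
    show ι (e h) ∈ N
    rw [hι, key]
    exact hh
  · intro P hP g hg d hd
    obtain ⟨Q, f, h, q1, q2, q3, q4, q5, q6, q7, q8⟩ := FR2 F L Ω m hUR P g hg hP d
      (e ⟨g ^ d, hd⟩) (key ⟨g ^ d, hd⟩)
    obtain ⟨p1, p2⟩ := fro_prime q7
    have h3 : Q ⊔ m.map (algebraMap (𝓞 F) (𝓞 L)) = ⊤ := (u1 Q p1 p2).2.2.2 (by rw [q2]; exact hP)
    have h4 := hμ Q h3 h q7
    have h5 : ψ P ^ f = ((μ h : ℂˣ) : ℂ) := by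
      rw [← h4, ← pc_pow hψ.pc, ← q5]
    obtain ⟨c, hc⟩ := q4
    have h6 : h ^ c = e ⟨g ^ d, hd⟩ := by
      apply AlgEquiv.restrictScalars_injective F
      rw [key ⟨g ^ d, hd⟩, ← hι, map_pow, hι, q8, ← pow_mul, ← hc]
    show ψ P ^ d = ((μ (e ⟨g ^ d, hd⟩) : ℂˣ) : ℂ)
    rw [← h6, map_pow, Units.val_pow_eq_pow_val, ← h5, ← pow_mul, ← hc]

end Pool.Agent.H37.RC
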